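import Pool.Agent.P8H67.TD.Stm

/-!
# Equivariant subdivision for a cover by two invariant open sets
-/

set_option autoImplicit false

open Set Filter Topology

namespace Pool.Agent.P8H42.TD

open Pool.Agent.N520.SV (Sx Chain face bdry norm1 BCob)
open Pool.Agent.P8H67.TD
open Pool.Agent.Helper922.HB.Sc

section Nat

variable {Z : Type} [TopologicalSpace Z] (φ : C(Z, Z)) (𝒞 : Set (Set Z))

theorem push_nat {n : ℕ} (σ : Sing Z n) (k : ℕ) (z : LS n k →₀ ℤ) :
    push (φ.comp σ) k z = Finsupp.lmapDomain ℤ ℤ (fun τ : Sing Z k => φ.comp τ) (push σ k z) := by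
  have : push (φ.comp σ) k =
      (Finsupp.lmapDomain ℤ ℤ (fun τ : Sing Z k => φ.comp τ)).comp (push σ k) := by
    apply Finsupp.lhom_ext'
    intro a
    apply LinearMap.ext_ring
    simp only [LinearMap.comp_apply, Finsupp.lsingle_apply]
    rw [push_single, push_single, Finsupp.lmapDomain_apply, Finsupp.mapDomain_single]
    rfl
  exact LinearMap.congr_fun this z

theorem Sd_nat (k : ℕ) (z : Sing Z k →₀ ℤ) :
    Sd Z k (Finsupp.lmapDomain ℤ ℤ (fun τ : Sing Z k => φ.comp τ) z) =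
      Finsupp.lmapDomain ℤ ℤ (fun τ : Sing Z k => φ.comp τ) (Sd Z k z) := by
  have : (Sd Z k).comp (Finsupp.lmapDomain ℤ ℤ (fun τ : Sing Z k => φ.comp τ)) =
      (Finsupp.lmapDomain ℤ ℤ (fun τ : Sing Z k => φ.comp τ)).comp (Sd Z k) := by
    apply Finsupp.lhom_ext'
    intro σ
    apply LinearMap.ext_ring
    simp only [LinearMap.comp_apply, Finsupp.lsingle_apply]
    rw [Finsupp.lmapDomain_apply, Finsupp.mapDomain_single, Sd, Finsupp.linearCombination_single,
      Finsupp.linearCombination_single, one_smul, one_smul, push_nat, Finsupp.lmapDomain_apply]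
  exact LinearMap.congr_fun this z

theorem TS_nat (k : ℕ) (z : Sing Z k →₀ ℤ) :
    TS Z k (Finsupp.lmapDomain ℤ ℤ (fun τ : Sing Z k => φ.comp τ) z) =
      Finsupp.lmapDomain ℤ ℤ (fun τ : Sing Z (k + 1) => φ.comp τ) (TS Z k z) := by
  have : (TS Z k).comp (Finsupp.lmapDomain ℤ ℤ (fun τ : Sing Z k => φ.comp τ)) =
      (Finsupp.lmapDomain ℤ ℤ (fun τ : Sing Z (k + 1) => φ.comp τ)).comp (TS Z k) := by
    apply Finsupp.lhom_ext'
    intro σ
    apply LinearMap.ext_ring
    simp only [LinearMap.comp_apply, Finsupp.lsingle_apply]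
    rw [Finsupp.lmapDomain_apply, Finsupp.mapDomain_single, TS, Finsupp.linearCombination_single,
      Finsupp.linearCombination_single, one_smul, one_smul, push_nat, Finsupp.lmapDomain_apply]
  exact LinearMap.congr_fun this z

theorem Sd_iter_nat (k m : ℕ) (z : Sing Z k →₀ ℤ) :
    (⇑(Sd Z k))^[m] (Finsupp.lmapDomain ℤ ℤ (fun τ : Sing Z k => φ.comp τ) z) =
      Finsupp.lmapDomain ℤ ℤ (fun τ : Sing Z k => φ.comp τ) ((⇑(Sd Z k))^[m] z) := by
  induction m with
  | zero => rfl
  | succ m ih => rw [Function.iterate_succ_apply', Function.iterate_succ_apply', ih, Sd_nat]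

theorem Good_nat (h𝒞 : ∀ C ∈ 𝒞, φ ⁻¹' C = C) {k : ℕ} (σ : Sing Z k) (r : ℝ) :
    Good 𝒞 (φ.comp σ) r ↔ Good 𝒞 σ r := by
  have key : ∀ (s : Set (Dl k)) (C : Set Z), C ∈ 𝒞 → ((φ.comp σ : Sing Z k) '' s ⊆ C ↔ σ '' s ⊆ C) := by
    intro s C hC
    constructor
    · rintro h _ ⟨x, hx, rfl⟩
      have h1 : φ (σ x) ∈ C := h ⟨x, hx, rfl⟩
      have h2 : σ x ∈ φ ⁻¹' C := h1
      rwa [h𝒞 C hC] at h2
    · rintro h _ ⟨x, hx, rfl⟩
      have h1 : σ x ∈ C := h ⟨x, hx, rfl⟩
      rw [← h𝒞 C hC] at h1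
      exact h1
  constructor
  · intro h s hs
    obtain ⟨C, hC, h1⟩ := h s hs
    exact ⟨C, hC, (key s C hC).1 h1⟩
  · intro h s hs
    obtain ⟨C, hC, h1⟩ := h s hs
    exact ⟨C, hC, (key s C hC).2 h1⟩

theorem mm_nat (hopen : ∀ C ∈ 𝒞, IsOpen C) (hcov : ∀ x : Z, ∃ C ∈ 𝒞, x ∈ C)
    (h𝒞 : ∀ C ∈ 𝒞, φ ⁻¹' C = C) {k : ℕ} (σ : Sing Z k) :
    mm 𝒞 (φ.comp σ : Sing Z k) = mm 𝒞 σ := by
  apply le_antisymm
  · exact mm_le 𝒞 _ _ ((Good_nat φ 𝒞 h𝒞 σ _).2 (mm_spec 𝒞 hopen hcov σ))
  · exact mm_le 𝒞 _ _ ((Good_nat φ 𝒞 h𝒞 σ _).1 (mm_spec 𝒞 hopen hcov (φ.comp σ : Sing Z k)))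

theorem DD_nat (hopen : ∀ C ∈ 𝒞, IsOpen C) (hcov : ∀ x : Z, ∃ C ∈ 𝒞, x ∈ C)
    (h𝒞 : ∀ C ∈ 𝒞, φ ⁻¹' C = C) (k : ℕ) (σ : Sing Z k) :
    DD 𝒞 k (Finsupp.single (φ.comp σ : Sing Z k) 1) =
      Finsupp.lmapDomain ℤ ℤ (fun τ : Sing Z (k + 1) => φ.comp τ) (DD 𝒞 k (Finsupp.single σ 1)) := by
  rw [DD_single, DD_single, mm_nat φ 𝒞 hopen hcov h𝒞, map_sum]
  refine Finset.sum_congr rfl fun i _ => ?_
  have h1 : (Finsupp.single (φ.comp σ : Sing Z k) 1 : Sing Z k →₀ ℤ) =
      Finsupp.lmapDomain ℤ ℤ (fun τ : Sing Z k => φ.comp τ) (Finsupp.single σ 1) := by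
    rw [Finsupp.lmapDomain_apply, Finsupp.mapDomain_single]
  rw [h1, Sd_iter_nat, TS_nat]

end Nat

section Main

variable {Y : Type} [TopologicalSpace Y] (S : Set Y)

/-- inclusion of simplices -/
def inc {S : Set Y} {k : ℕ} (τ : C(Sx k, S)) : C(Sx k, Y) :=
  ⟨fun t => (τ t).1, continuous_subtype_val.comp τ.continuous⟩

/-- restriction of simplices -/
def res {k : ℕ} (σ : C(Sx k, Y)) (h : range σ ⊆ S) : C(Sx k, S) :=
  ⟨fun t => ⟨σ t, h ⟨t, rfl⟩⟩, Continuous.subtype_mk σ.continuous _⟩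

theorem inc_res {k : ℕ} (σ : C(Sx k, Y)) (h : range σ ⊆ S) : inc (res S σ h) = σ := rfl

theorem range_inc {S : Set Y} {k : ℕ} (τ : C(Sx k, S)) : range (inc τ) ⊆ S := by
  rintro _ ⟨t, rfl⟩
  exact (τ t).2

/-- integral chains of `S` as real chains of `Y` -/
noncomputable def ic {S : Set Y} (k : ℕ) : (Sing S k →₀ ℤ) →ₗ[ℤ] Chain k Y :=
  Finsupp.linearCombination ℤ fun τ => Finsupp.single (inc (k := k) τ) (1 : ℝ)

theorem ic_single {S : Set Y} {k : ℕ} (τ : Sing S k) (n : ℤ) :
    ic k (Finsupp.single τ n) = Finsupp.single (inc (k := k) τ) (n : ℝ) := by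
  rw [ic, Finsupp.linearCombination_single]
  ext x
  simp

theorem bdry_ic {S : Set Y} (k : ℕ) (z : Sing S (k + 1) →₀ ℤ) :
    bdry k (ic (k + 1) z) = ic k (sbd S k z) := by
  induction z using Finsupp.induction_linear with
  | zero => simp
  | add x y hx hy => rw [map_add, map_add, hx, hy, map_add, map_add]
  | single τ n =>
    have e : (Finsupp.single τ n : Sing S (k + 1) →₀ ℤ) = n • Finsupp.single τ 1 := by
      simp
    rw [e, map_zsmul, map_zsmul, map_zsmul, map_zsmul, ic_single, sbd, bd_single, map_sum]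
    congr 1
    rw [bdry, Finsupp.linearCombination_single]
    push_cast
    rw [one_smul]
    refine Finset.sum_congr rfl fun i _ => ?_
    rw [map_zsmul, ic_single]
    have e2 : inc (k := k) (sface k i τ) = (inc (k := k + 1) τ).comp (face i) := rfl
    rw [e2]
    ext x
    simp

theorem ic_mem_CC {S : Set Y} (k : ℕ) (z : Sing S k →₀ ℤ) : ic k z ∈ CC k S := by
  induction z using Finsupp.induction_linear with
  | zero => simp
  | add x y hx hy => rw [map_add]; exact Submodule.add_mem _ hx hy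
  | single τ n =>
    rw [ic_single]
    exact Finsupp.single_mem_supported ℝ _ (range_inc τ)

open Classical in
/-- the operator on the chains of `Y` given by an operator on the chains of `S` -/
noncomputable def op (k l : ℕ) (f : (Sing S k →₀ ℤ) →ₗ[ℤ] (Sing S l →₀ ℤ)) : Chain k Y →ₗ[ℝ] Chain l Y :=
  Finsupp.linearCombination ℝ fun σ =>
    if h : range σ ⊆ S then ic l (f (Finsupp.single (res S σ h) 1)) else 0

theorem op_single (k l : ℕ) (f : (Sing S k →₀ ℤ) →ₗ[ℤ] (Sing S l →₀ ℤ)) (σ : C(Sx k, Y))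
    (h : range σ ⊆ S) :
    op S k l f (Finsupp.single σ 1) = ic l (f (Finsupp.single (res S σ h) 1)) := by
  rw [op, Finsupp.linearCombination_single, one_smul, dif_pos h]

theorem op_ic (k l : ℕ) (f : (Sing S k →₀ ℤ) →ₗ[ℤ] (Sing S l →₀ ℤ)) (z : Sing S k →₀ ℤ) :
    op S k l f (ic k z) = ic l (f z) := by
  induction z using Finsupp.induction_linear with
  | zero => simp
  | add x y hx hy => rw [map_add, map_add, hx, hy, map_add, map_add]
  | single τ n =>
    have e : (Finsupp.single τ n : Sing S k →₀ ℤ) = n • Finsupp.single τ 1 := by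
      simp
    rw [e, map_zsmul, map_zsmul, map_zsmul, map_zsmul, ic_single]
    push_cast
    rw [op_single S k l f _ (range_inc τ)]
    rfl

theorem CC_induction {k : ℕ} {W : Set Y} {p : Chain k Y → Prop} (h0 : p 0)
    (hadd : ∀ x y, p x → p y → p (x + y)) (hsm : ∀ (a : ℝ) x, p x → p (a • x))
    (hs : ∀ σ : C(Sx k, Y), range σ ⊆ W → p (Finsupp.single σ 1)) :
    ∀ c ∈ CC k W, p c := by
  intro c hc
  unfold CC at hc
  rw [Finsupp.supported_eq_span_single] at hc
  refine Submodule.span_induction ?_ h0 (fun x y _ _ hx hy => hadd x y hx hy)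
    (fun a x _ hx => hsm a x hx) hc
  rintro _ ⟨σ, hσ, rfl⟩
  exact hs σ hσ

end Main

theorem sub : S_SUB := by
  intro Y G _ _ _ _ A B hA hB hGA hGB
  obtain ⟨S, hS⟩ : ∃ S : Set Y, S = A ∪ B := ⟨_, rfl⟩
  let A' : Set S := {z | z.1 ∈ A}
  let B' : Set S := {z | z.1 ∈ B}
  let 𝒞 : Set (Set S) := {A', B'}
  have hopen : ∀ C ∈ 𝒞, IsOpen C := by
    rintro C (rfl | rfl)
    · exact hA.preimage continuous_subtype_val
    · exact hB.preimage continuous_subtype_val
  have hcov : ∀ x : S, ∃ C ∈ 𝒞, x ∈ C := by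
    rintro ⟨x, hx⟩
    have hx' := hx
    rw [hS] at hx'
    rcases hx' with h | h
    · exact ⟨A', Or.inl rfl, h⟩
    · exact ⟨B', Or.inr rfl, h⟩
  have hGS : ∀ (g : G), ∀ y ∈ S, g • y ∈ S := by
    intro g y hy
    rw [hS] at hy ⊢
    rcases hy with h | h
    · exact Or.inl (hGA g y h)
    · exact Or.inr (hGB g y h)
  refine ⟨fun k => op S k k (rho 𝒞 k), fun k => op S k (k + 1) (DD 𝒞 k), ?_, ?_, ?_, ?_⟩
  · intro k
    rw [← hS]
    apply CC_induction
    · simp
    · intro x y hx hy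
      simp only [map_add] at hx hy ⊢
      nth_rewrite 1 [hx]
      nth_rewrite 1 [hy]
      abel
    · intro a x hx
      simp only [map_smul] at hx ⊢
      nth_rewrite 1 [hx]
      rw [smul_add, smul_add]
    · intro σ hσ
      have e : (Finsupp.single σ 1 : Chain (k + 1) Y) = ic (k + 1) (Finsupp.single (res S σ hσ) 1) := by
        rw [ic_single]
        push_cast
        rfl
      have h1 := rho_succ 𝒞 k (Finsupp.single (res S σ hσ) 1)
      rw [e, op_ic, op_ic, bdry_ic, bdry_ic, op_ic, ← map_add, ← map_add]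
      congr 1
      rw [h1]
      abel
  · intro k
    rw [← hS]
    apply CC_induction
    · simp
    · intro x y hx hy
      rw [map_add]
      exact Submodule.add_mem _ hx hy
    · intro a x hx
      rw [map_smul]
      exact Submodule.smul_mem _ _ hx
    · intro σ hσ
      rw [op_single S k k _ σ hσ]
      have h1 := rho_small 𝒞 hopen hcov k (Finsupp.single (res S σ hσ) 1)
      rw [Finsupp.supported_eq_span_single] at h1
      refine Submodule.span_induction (p := fun z _ => ic k z ∈ CC k A ⊔ CC k B) ?_ (by simp) ?_ ?_ h1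
      · rintro _ ⟨τ, ⟨C, hC, hτ⟩, rfl⟩
        simp only [ic_single]
        rcases hC with rfl | rfl
        · apply Submodule.mem_sup_left
          apply Finsupp.single_mem_supported ℝ
          rintro _ ⟨t, rfl⟩
          exact hτ ⟨t, rfl⟩
        · apply Submodule.mem_sup_right
          apply Finsupp.single_mem_supported ℝ
          rintro _ ⟨t, rfl⟩
          exact hτ ⟨t, rfl⟩
      · intro x y _ _ hx hy
        rw [map_add]
        exact Submodule.add_mem _ hx hy
      · intro a x _ hx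
        rw [map_zsmul]
        exact zsmul_mem hx a
  · intro k
    rw [← hS]
    apply CC_induction
    · simp
    · intro x y hx hy
      rw [map_add]
      exact Submodule.add_mem _ hx hy
    · intro a x hx
      rw [map_smul]
      exact Submodule.smul_mem _ _ hx
    · intro σ hσ
      rw [op_single S k (k + 1) _ σ hσ]
      exact ic_mem_CC _ _
  · intro k c hc
    rw [← hS] at hc ⊢
    unfold KK at hc
    refine Submodule.span_induction (p := fun c _ => op S k (k + 1) (DD 𝒞 k) c ∈ KK G (k + 1) S)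
      ?_ (by simp) ?_ ?_ hc
    · rintro _ ⟨g, σ, hσ, rfl⟩
      have hgσ : range (gs g σ) ⊆ S := by
        rintro _ ⟨t, rfl⟩
        exact hGS g _ (hσ ⟨t, rfl⟩)
      rw [map_sub, op_single S k (k + 1) _ _ hσ, op_single S k (k + 1) _ _ hgσ]
      let φ : C(S, S) := ⟨fun z => ⟨g • z.1, hGS g z.1 z.2⟩,
        Continuous.subtype_mk ((continuous_const_smul g).comp continuous_subtype_val) _⟩
      have hinv : ∀ (W : Set Y), GInv G W → ∀ y, g • y ∈ W → y ∈ W := by
        intro W hW y hy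
        have := hW g⁻¹ _ hy
        rwa [inv_smul_smul] at this
      have h𝒞 : ∀ C ∈ 𝒞, φ ⁻¹' C = C := by
        rintro C (rfl | rfl)
        · ext z
          exact ⟨fun h => hinv A hGA _ h, fun h => hGA g _ h⟩
        · ext z
          exact ⟨fun h => hinv B hGB _ h, fun h => hGB g _ h⟩
      have e1 : res S (gs g σ) hgσ = (φ.comp (res S σ hσ) : Sing S k) := rfl
      rw [e1, DD_nat φ 𝒞 hopen hcov h𝒞]
      generalize DD 𝒞 k (Finsupp.single (res S σ hσ) 1) = w
      induction w using Finsupp.induction_linear with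
      | zero => simp
      | add x y hx hy =>
        rw [map_add, map_add, map_add]
        have := Submodule.add_mem _ hx hy
        convert this using 1
        abel
      | single τ n =>
        rw [Finsupp.lmapDomain_apply, Finsupp.mapDomain_single, ic_single, ic_single]
        have h2 : (Finsupp.single (inc (k := k + 1) (φ.comp τ)) (n : ℝ) -
            Finsupp.single (inc (k := k + 1) τ) (n : ℝ) : Chain (k + 1) Y) =
            (n : ℝ) • (Finsupp.single (gs g (inc (k := k + 1) τ)) 1 - Finsupp.single (inc (k := k + 1) τ) 1) := by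
          rw [smul_sub, Finsupp.smul_single, Finsupp.smul_single, smul_eq_mul, mul_one]
          rfl
        rw [h2]
        apply Submodule.smul_mem
        apply Submodule.subset_span
        exact ⟨g, _, range_inc τ, rfl⟩
    · intro x y _ _ hx hy
      rw [map_add]
      exact Submodule.add_mem _ hx hy
    · intro a x _ hx
      rw [map_smul]
      exact Submodule.smul_mem _ _ hx

end Pool.Agent.P8H42.TD
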